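import Pool.Agent.N483.KM.FinB2

/-!
# The KLS inequality is stable under a bounded Prekopa-Leindler deficit

Q1, for sets `S` of measure one half, for the log-concave measures on `ℝⁿ` with density `g`, and for the
laws of all their linear images (marginals), for which there is a log-concave density `f` on `ℝⁿ` which
satisfies the inequality of Kannan, Lovasz and Simonovits, in the form `WeakPoincare A`, with

`f(x) g(y) ≤ h((x + y) / 2)²` for all `x, y`, and `∫ h ≤ √s (∫ f ∫ g)^{1/2}`

for some function `h`, that is if the Prekopa-Leindler inequality `∫ h ≥ (∫ f ∫ g)^{1/2}` is sharp up to a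
constant factor for `f` and `g`. For the uniform measures on convex bodies `K` and `L` (`bodies`) the
condition is `|(K + L) / 2| ≤ √s (|K| |L|)^{1/2}` (bounded Brunn-Minkowski deficit). Nothing is assumed
about the position of `f` and `g` (the condition does not change under translations), and no
symmetries. The constant depends on `s` and on the constants of `f`, and not on the dimension. The
hypothesis on `f` is `WeakPoincare A`: weak Poincare inequalities `Var v ≤ δ + A(δ) σ E ‖∇ v‖²` for all linear
images with variances at most `σ`, all `δ > 0` and `|v| ≤ 1`, where `A` is any function which is fixed in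
advance. Measures with a Poincare inequality with constant `c₀` in isotropic position have
`A(δ) = c₀ / (4 δ)`. `g` satisfies such inequalities too, so the theorem can be iterated.

E. Milman (On the role of convexity in isoperimetry, spectral gap and concentration, Invent. Math.
2009) proves that the constants of two log-concave probability measures are comparable if their
total variation distance is at most `1 - 1 / s`. This follows from the theorem (twice, by way of
`min (f, g)`; theorem `overlap`), but in the theorem `f` and `g` may be mutually singular, and the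
total variation distance of `f` and all translates of `g` may be exponentially near to one: for the
cube and the box with side lengths `1 ± n^{-1/2}` (as many of both signs) the deficit is bounded and
the intersections have volume at most `exp(-c √n)`. For bodies and `L = -K` the condition is
`|K - K| ≤ √s 2^n |K|`. Eldan and Klartag (Dimensionality and the stability of the Brunn-Minkowski
inequality, 2014) study pairs of convex bodies under the condition `|(K + L) / 2| ≤ 5 √(|K| |L|)`; they
show that the covariance matrices and most of the marginals of `K` and `L` are near to each other,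
given bounds for the thin shell. The theorem says that the isoperimetric inequality of Kannan, Lovasz
and Simonovits itself passes from `K` to `L`, and from `f` to `g`.

Method. Bodies first. (1) `K` and a dilate `L'` of `L` have the same volume and `|(K + L') / 2| ≤ s |K|`
(concavity of the logarithm). (2) `M = {(x, t) | 0 ≤ t ≤ 1, x ∈ (1 - t) K + t L'}` is a convex body in
`ℝⁿ × ℝ` with sections `K` for `t = 0` and `L'` for `t = 1`. By the Brunn-Minkowski inequality all of its
sections have volume between `|K|` and `s² |K|` or so. (3) So both `K` and `L'` are large sections of `M`,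
and the theorem on large sections (`LargeSections`), in its form for two sections, applies: let `P` be
a linear map such that `P x` has variances at most `σ` on `L'`. There is a linear map `B` such that
`P x - B t` has variances at most `C σ` on `M`, hence on all sections of `M`. The concentration radii of
the laws of `P x - B t` on two sections with a nearly maximal affinity (sections whose volumes are
nearly equal) are comparable; a chain of boundedly many such sections connects `K` and `L'`, because
the volumes differ at most by a constant factor. This is proved with the Prekopa-Leindler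
inequality in the Gaussian channel; see `LargeSections` for the method. (4) Densities: `f` and `g` are
limits, for `M → ∞`, of the marginals of the bodies `K_M = {(x, y) | y ∈ ℝ^M, |y_i| ≤ (1 + log f(x) / M) / 2}`
and `L_M`, whose deficit is bounded too, and concentration passes from `f` to `K_M` and from `L_M` to
`g`. (5) The passage from the concentration of all linear images to the isoperimetric inequality is
that of `ImagesOfSections`.

The lemmas were formalised by helpers 73, 78, 232, 327, 334, 348, 385, 426, 438, 558, 697, 738, 930, the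
authors of the lemmas of `LargeSections`, and 483.
-/

set_option autoImplicit false

namespace Pool.Agent.Results.MP_6d896a_gt.BrunnMinkowskiDeficit

open MeasureTheory Set
open scoped ENNReal InnerProductSpace Pointwise

/-- Euclidean space of dimension `n` -/
abbrev Euc (n : ℕ) : Type := EuclideanSpace ℝ (Fin n)

/-- the probability measure on `ℝⁿ` with density proportional to `w` -/
noncomputable def law {n : ℕ} (w : Euc n → ℝ) : Measure (Euc n) :=
  (∫⁻ x, ENNReal.ofReal (w x))⁻¹ • volume.withDensity fun x => ENNReal.ofReal (w x)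

/-- The inequalities `Var v(P x) ≤ δ + A(δ) σ E ‖∇ v(P x)‖²` for all `δ > 0`, all linear images `P x` of
`x` (of law `μ`), all bounds `σ` for the variances of the marginals of `P x` in directions of length
one, and all `C¹` functions `v` with `|v| ≤ 1` and bounded gradient. They follow, with
`A(δ) = c₀ / (4 δ)`, from the Poincare inequality with constant `c₀` for `μ` in isotropic position. -/
def WeakPoincare (A : ℝ → ℝ) {M : ℕ} (μ : Measure (Euc M)) : Prop :=
  ∀ δ : ℝ, 0 < δ → ∀ (k : ℕ) (P : Euc M →ₗ[ℝ] Euc k) (σ : ℝ), 0 < σ →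
  (∀ θ : Euc k, ‖θ‖ = 1 → ProbabilityTheory.variance (fun x => ⟪P x, θ⟫_ℝ) μ ≤ σ) →
  ∀ (v : Euc k → ℝ) (C : ℝ), ContDiff ℝ 1 v → (∀ y, |v y| ≤ 1) → (∀ y, ‖fderiv ℝ v y‖ ≤ C) →
  ProbabilityTheory.variance (fun x => v (P x)) μ ≤ δ + A δ * σ * ∫ x, ‖fderiv ℝ v (P x)‖ ^ 2 ∂μ

/-- nonnegative log-concave functions -/
structure LogConcave {n : ℕ} (w : Euc n → ℝ) : Prop where
  nonneg : ∀ x, 0 ≤ w x
  conc : ∀ x y, ∀ t : ℝ, 0 < t → t < 1 → w x ^ (1 - t) * w y ^ t ≤ w ((1 - t) • x + t • y)

/-- upper semicontinuous log-concave functions with a finite and positive integral -/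
structure Density {n : ℕ} (w : Euc n → ℝ) : Prop where
  logConcave : LogConcave w
  usc : UpperSemicontinuous w
  int : Integrable w
  pos : 0 < ∫ x, w x

/-- the boundary measure `μ⁺(S)`, the lower limit of `(μ(S_ε) - μ(S)) / ε` for the open
neighbourhoods `S_ε` of `S` -/
noncomputable def bdry {n : ℕ} (μ : Measure (Euc n)) (S : Set (Euc n)) : ℝ≥0∞ :=
  Filter.liminf (fun ε : ℝ => (μ (Metric.thickening ε S) - μ S) / ENNReal.ofReal ε)
    (nhdsWithin 0 (Set.Ioi 0))

/-- `μ⁺(S) √σ ≥ c min(μ S, μ Sᶜ)` for all measurable sets `S` of measure one half and for every bound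
`σ` of the variances of the marginals of `μ` in directions of length one -/
def KLSHalf {n : ℕ} (c : ℝ) (μ : Measure (Euc n)) : Prop :=
  ∀ σ : ℝ, 0 < σ →
    (∀ θ : Euc n, ‖θ‖ = 1 → ProbabilityTheory.variance (fun x => ⟪x, θ⟫_ℝ) μ ≤ σ) →
    ∀ S : Set (Euc n), MeasurableSet S → μ S = 1 / 2 →
      ENNReal.ofReal (c / Real.sqrt σ) * min (μ S) (μ Sᶜ) ≤ bdry μ S

/-- all linear images `μ` of the probability measure with density proportional to `w` satisfy
`KLSHalf c μ` -/
def ImagesKLS {m : ℕ} (c : ℝ) (w : Euc m → ℝ) : Prop :=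
  ∀ (n : ℕ) (L : Euc m →ₗ[ℝ] Euc n) (μ : Measure (Euc n)), μ = Measure.map L (law w) →
    IsProbabilityMeasure μ ∧ KLSHalf c μ

theorem Density.lw {n : ℕ} {w : Euc n → ℝ} (h : Density w) : Pool.Agent.N483.KM.LW w :=
  Pool.Agent.N483.KM.lw_of h.logConcave.nonneg h.logConcave.conc h.usc h.int h.pos

/-- **KLS is stable under a bounded Prekopa-Leindler deficit.** For all functions `A : ℝ → ℝ` and all
`s` there are a function `A'` and a constant `c > 0` such that for all `n`, all log-concave densities `f, g`
on `ℝⁿ` and all `h ≥ 0` with `f(x) g(y) ≤ h((x + y) / 2)²` and `(∫ h)² ≤ s ∫ f ∫ g`: if `law f` satisfies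
`WeakPoincare A` then `law g` satisfies `WeakPoincare A'` and for all linear maps `T : ℝⁿ → ℝ^k` the law `μ`
of `T x`, `x` of law `law g`, is a probability measure with `μ⁺(S) √‖Cov μ‖ ≥ c min(μ S, μ Sᶜ)` for all
measurable `S` with `μ S = 1/2`. -/
theorem result : ∀ (A : ℝ → ℝ) (s : ℕ), ∃ (A' : ℝ → ℝ) (c : ℝ), 0 < c ∧
    ∀ (n : ℕ) (f g h : Euc n → ℝ), Density f → Density g → WeakPoincare A (law f) →
    (∀ x, 0 ≤ h x) → Measurable h → Integrable h →
    (∀ x y, f x * g y ≤ h ((1 / 2 : ℝ) • (x + y)) ^ 2) →
    (∫ x, h x) ^ 2 ≤ s * ((∫ x, f x) * ∫ x, g x) → WeakPoincare A' (law g) ∧ ImagesKLS c g := by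
  intro A s
  obtain ⟨A', HA⟩ := Pool.Agent.N483.KM.pdm_kmw A s
  obtain ⟨c, hc, H⟩ := Pool.Agent.N483.KM.pdm_star A s
  refine ⟨A', 1 / (4 * c), by positivity, fun n f g h hf hg hA h0 hm hi hfg hd => ?_⟩
  have hP : Pool.Agent.N483.KM.PDm A s n g := ⟨f, h, hf.lw,
    (Pool.Agent.N483.KM.wpm_iff hf.lw.adm).1 hA, hg.lw, h0, hm, hi, hfg, hd⟩
  refine ⟨(Pool.Agent.N483.KM.wpm_iff hg.lw.adm).2 (HA n g hP), fun k T μ hμ => ?_⟩
  obtain ⟨h1, h2⟩ := H n g hP
  obtain ⟨hp, h3⟩ := Pool.Agent.N483.KM.half_law h1.adm hc h2 k T μ hμ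
  refine ⟨hp, fun σ hσ hvar S hS hS2 => ?_⟩
  refine le_trans ?_ (h3 σ hσ hvar S hS2)
  calc _ ≤ ENNReal.ofReal (1 / (4 * c) / Real.sqrt σ) * 1 :=
        mul_le_mul_right ((min_le_left _ _).trans prob_le_one) _
    _ = _ := mul_one _

theorem Density.mid {n : ℕ} {f : Euc n → ℝ} (hf : Density f) (x y : Euc n) :
    f x * f y ≤ f ((1 / 2 : ℝ) • (x + y)) ^ 2 := by
  have h1 := hf.logConcave.conc x y (1 / 2) (by norm_num) (by norm_num)
  have h2 : (1 - 1 / 2 : ℝ) • x + (1 / 2 : ℝ) • y = (1 / 2 : ℝ) • (x + y) := by
    rw [smul_add]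
    norm_num
  rw [h2] at h1
  have h3 : (f x ^ (1 - 1 / 2 : ℝ) * f y ^ (1 / 2 : ℝ)) ^ 2 = f x * f y := by
    have e1 : (1 - 1 / 2 : ℝ) = 1 / 2 := by norm_num
    rw [mul_pow, e1, ← Real.sqrt_eq_rpow, ← Real.sqrt_eq_rpow, Real.sq_sqrt (hf.logConcave.nonneg x),
      Real.sq_sqrt (hf.logConcave.nonneg y)]
  rw [← h3]
  exact pow_le_pow_left₀ (mul_nonneg (Real.rpow_nonneg (hf.logConcave.nonneg x) _)
    (Real.rpow_nonneg (hf.logConcave.nonneg y) _)) h1 2

/-- the minimum of two densities -/
theorem Density.min {n : ℕ} {f g : Euc n → ℝ} (hf : Density f) (hg : Density g)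
    (h : 0 < ∫ x, min (f x) (g x)) : Density fun x => min (f x) (g x) := by
  refine ⟨⟨fun x => le_min (hf.logConcave.nonneg x) (hg.logConcave.nonneg x),
    fun x y t ht ht1 => ?_⟩, hf.usc.inf hg.usc, hf.int.inf hg.int, h⟩
  have ht' : 0 ≤ 1 - t := by linarith
  have m0 : ∀ z, 0 ≤ Min.min (f z) (g z) :=
    fun z => le_min (hf.logConcave.nonneg z) (hg.logConcave.nonneg z)
  refine le_min ?_ ?_
  · refine le_trans (mul_le_mul (Real.rpow_le_rpow (m0 x) (min_le_left _ _) ht')
      (Real.rpow_le_rpow (m0 y) (min_le_left _ _) ht.le) (Real.rpow_nonneg (m0 y) _)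
      (Real.rpow_nonneg (hf.logConcave.nonneg x) _)) (hf.logConcave.conc x y t ht ht1)
  · refine le_trans (mul_le_mul (Real.rpow_le_rpow (m0 x) (min_le_right _ _) ht')
      (Real.rpow_le_rpow (m0 y) (min_le_right _ _) ht.le) (Real.rpow_nonneg (m0 y) _)
      (Real.rpow_nonneg (hg.logConcave.nonneg x) _)) (hg.logConcave.conc x y t ht ht1)

/-- The case of E. Milman: `∫ min(f, g) ≥ max(∫ f, ∫ g) / s`. -/
theorem overlap : ∀ (A : ℝ → ℝ) (s : ℕ), ∃ (A' : ℝ → ℝ) (c : ℝ), 0 < c ∧
    ∀ (n : ℕ) (f g : Euc n → ℝ), Density f → Density g → WeakPoincare A (law f) →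
    ∫ x, f x ≤ s * ∫ x, min (f x) (g x) → ∫ x, g x ≤ s * ∫ x, min (f x) (g x) →
    WeakPoincare A' (law g) ∧ ImagesKLS c g := by
  intro A s
  obtain ⟨A1, c1, -, H1⟩ := result A s
  obtain ⟨A2, c, hc, H2⟩ := result A1 s
  refine ⟨A2, c, hc, fun n f g hf hg hA h1 h2 => ?_⟩
  have hpos : 0 < ∫ x, min (f x) (g x) := by
    by_contra hcon
    push Not at hcon
    have h3 := mul_nonpos_of_nonneg_of_nonpos (Nat.cast_nonneg (α := ℝ) s) hcon
    linarith [hf.pos]
  have hI := hf.min hg hpos
  have m0 : ∀ z, 0 ≤ min (f z) (g z) :=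
    fun z => le_min (hf.logConcave.nonneg z) (hg.logConcave.nonneg z)
  have h3 := (H1 n f _ f hf hI hA hf.logConcave.nonneg hf.usc.measurable hf.int (fun x y =>
    le_trans (mul_le_mul_of_nonneg_left (min_le_left _ _) (hf.logConcave.nonneg x))
      (hf.mid x y)) (by nlinarith [hf.pos])).1
  exact H2 n _ g g hI hg h3 hg.logConcave.nonneg hg.usc.measurable hg.int (fun x y =>
    le_trans (mul_le_mul_of_nonneg_right (min_le_right _ _) (hg.logConcave.nonneg y))
      (hg.mid x y)) (by nlinarith [hg.pos])

/-- Uniform measures on convex bodies: bounded Brunn-Minkowski deficit. The indicator functions are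
densities, and their laws are the uniform measures. -/
theorem bodies : ∀ (A : ℝ → ℝ) (s : ℕ), ∃ (A' : ℝ → ℝ) (c : ℝ), 0 < c ∧
    ∀ (n : ℕ) (K L : Set (Euc n)), IsCompact K → Convex ℝ K → (interior K).Nonempty →
    IsCompact L → Convex ℝ L → (interior L).Nonempty →
    WeakPoincare A ((volume K)⁻¹ • volume.restrict K) →
    volume ((1 / 2 : ℝ) • (K + L)) ^ 2 ≤ s * (volume K * volume L) →
    WeakPoincare A' ((volume L)⁻¹ • volume.restrict L) ∧ ImagesKLS c (L.indicator fun _ => 1) := by
  intro A s
  obtain ⟨A', c, hc, H⟩ := result A s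
  refine ⟨A', c, hc, fun n K L k1 k2 k3 l1 l2 l3 hA hd => ?_⟩
  have den : ∀ K : Set (Euc n), IsCompact K → Convex ℝ K → (interior K).Nonempty →
      Density (K.indicator fun _ => 1) ∧
      law (K.indicator fun _ => 1) = (volume K)⁻¹ • volume.restrict K ∧
      ∫ x, K.indicator (fun _ => (1 : ℝ)) x = (volume K).toReal := by
    intro K h1 h2 h3
    have h := Pool.Agent.N483.KM.lboR n K h1 h2 h3
    refine ⟨⟨⟨h.adm.nonneg, h.lc⟩, h1.isClosed.upperSemicontinuous_indicator zero_le_one,
      h.adm.one, h.adm.pos⟩, Pool.Agent.Y506.PV.pm_ind K h1.measurableSet, ?_⟩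
    rw [integral_indicator h1.measurableSet]
    simp [Measure.real]
  obtain ⟨dK, eK, iK⟩ := den K k1 k2 k3
  obtain ⟨dL, eL, iL⟩ := den L l1 l2 l3
  have hM : IsCompact ((1 / 2 : ℝ) • (K + L)) := (k1.add l1).smul (1 / 2 : ℝ)
  have hMi : ∫ x, ((1 / 2 : ℝ) • (K + L)).indicator (fun _ => (1 : ℝ)) x =
      (volume ((1 / 2 : ℝ) • (K + L))).toReal := by
    rw [integral_indicator hM.measurableSet]
    simp [Measure.real]
  rw [← eL]
  refine H n _ _ (((1 / 2 : ℝ) • (K + L)).indicator fun _ => 1) dK dL (by rw [eK]; exact hA)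
    (fun x => indicator_nonneg (fun _ _ => zero_le_one) x)
    (measurable_const.indicator hM.measurableSet) ?_ (fun x y => ?_) ?_
  · rw [integrable_indicator_iff hM.measurableSet]
    exact (integrableOn_const hM.measure_lt_top.ne)
  · by_cases hx : x ∈ K
    · by_cases hy : y ∈ L
      · rw [indicator_of_mem (smul_mem_smul_set (add_mem_add hx hy)), indicator_of_mem hx,
          indicator_of_mem hy]
        norm_num
      · rw [indicator_of_notMem hy, mul_zero]
        positivity
    · rw [indicator_of_notMem hx, zero_mul]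
      positivity
  · rw [hMi, iK, iL]
    have h1 := ENNReal.toReal_mono (by
      refine ENNReal.mul_ne_top (ENNReal.natCast_ne_top s) (ENNReal.mul_ne_top ?_ ?_)
      · exact k1.measure_lt_top.ne
      · exact l1.measure_lt_top.ne) hd
    rw [ENNReal.toReal_pow, ENNReal.toReal_mul, ENNReal.toReal_mul, ENNReal.toReal_natCast] at h1
    exact h1

end Pool.Agent.Results.MP_6d896a_gt.BrunnMinkowskiDeficit
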