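import Pool.Agent.N483.KM.FinS

/-!
# KLS for the feasible sets of conic programs with few equations

Q1, for sets `S` of measure one half, for the uniform measures on the following convex bodies, their
images under affine maps `ℝ^m → ℝ^n`, `m ≤ n + p`, and for the laws of all linear images (marginals, in
any dimension) of these measures:

`K = {x ∈ ℝ^m | w + L x ∈ C}`, `C ⊂ ℝ^N`, `N ≤ m + q`,

where `L` is linear and `C` is a product of arbitrarily many Lorentz cones `{(x, t) | ‖x‖ ≤ t}` of arbitrary
dimensions (half-lines are the Lorentz cones of dimension one) and cones of positive semidefinite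
real symmetric or complex Hermitian matrices of arbitrary orders, whenever `K` is bounded with
nonempty interior. The constant depends only on `q` and `p`, and not on the dimensions, the number of
factors or their orders. So these are the feasible sets of linear, second order and semidefinite
programs

`{X ∈ C | ⟪B_i, X⟫ = b_i for i ≤ q}`

with a bounded number `q` of equations; linear inequalities may be added (each of them counts as one
half-line and one equation). In the form of linear matrix inequalities: the spectrahedra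
`{x ∈ ℝ^m | A_0 + ∑ x_i A_i ⪰ 0}` with symmetric `D × D` matrices and `m ≥ D (D + 1) / 2 - q` (Hermitian:
`m ≥ D² - q`; theorem `spectrahedra`). Examples: the set of the quantum states (density matrices) on
`ℂ^D`, and its sections by `q` linear equations and inequalities for the expectations of observables;
sections of codimension `q` of the cones `{(x, t) | ‖x‖ ≤ t}` and of their products; polytopes with
`m + q` facets (all the factors are half-lines; this case is known from `RidgeFunctions`). No symmetry
is assumed or present for `q ≥ 2`, and nothing is assumed about the position of the affine subspace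
`w + L ℝ^m` (`K` may be a section of a face of the cone, or very small compared to parallel sections).

Method. (1) Supporting functional: the volume `V(b)` of the section `{x | e(x, b) ∈ C}`, where
`e : ℝ^m × ℝ^q → ℝ^N` is bijective, is homogeneous and its superlevel sets are convex, so there is a
linear functional `f` on `ℝ^N`, which depends only on `b`, and is positive on `C` without the origin, such
that `V(b) ≤ 2 V(b_0)` if `f ≤ F := f(e(x, b_0))`. So `K` is a section of `{z ∈ C | f z ≤ F}` which is not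
smaller than half of any parallel section, and by the theorem of `LargeSections` it is enough to
consider the bodies `{z ∈ C | f z ≤ F}`, with constants which do not depend on `f`. (2) Homogeneity: for
every functional `f` as in (1) there is a linear bijection of `C` which transforms `f` to the standard
functional (the trace, respectively the coordinate `t`), because the group of the linear automorphisms
of the cone is transitive on the interior of the dual cone. (3) Poincare inequalities, in isotropic
position, for the densities `exp(-f)` on `C` with an absolute constant: for positive semidefinite matrices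
and `f` the trace the density is invariant under conjugation (`SimultaneousConjugation`); for the Lorentz cones `(x, t)`
has the same law as `(x, u + ‖x‖)` with independent `x` (density `exp(-‖x‖)`, 1-symmetric) and `u`
(exponential), a Lipschitz map, and all variances are equal to `k + 1`; products by tensorisation. (4)
`exp(-f)` is the mixture of the uniform measures on the dilates of `{z ∈ C | f z ≤ F}` (`ImagesOfSections`).
(5) If `w + L ℝ^m` does not meet the interior of `C`, approximation by `w + ε c + L ℝ^m`, `c` in the interior. (6)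
The images under linear maps with kernels of dimension at most `p`, and the passage from the
concentration of all linear images to the isoperimetric inequality, are those of `ImagesOfSections`.

The lemmas were formalised by helpers 31, 78, 273, 277, 300, 395, 618, 697, 717, 814, 933, the authors of the
lemmas of `LargeSections`, and 483.
-/

set_option autoImplicit false

namespace Pool.Agent.Results.MP_6d896a_gt.ConicPrograms

open MeasureTheory Set
open scoped ENNReal InnerProductSpace ComplexOrder

/-- Euclidean space of dimension `n` -/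
abbrev Euc (n : ℕ) : Type := EuclideanSpace ℝ (Fin n)

/-- the uniform probability measure on `K` -/
noncomputable def unif {n : ℕ} (K : Set (Euc n)) : Measure (Euc n) :=
  (volume K)⁻¹ • volume.restrict K

/-- `Φ` is a linear isometric parametrisation of the Hermitian `D × D` matrices over `𝕜` (`ℝ` or `ℂ`),
with the Hilbert-Schmidt norm, by `ℝ^ι` -/
structure HermFrame {𝕜 : Type} [RCLike 𝕜] {D : ℕ} {ι : Type} [Fintype ι]
    (Φ : EuclideanSpace ℝ ι →ₗ[ℝ] Matrix (Fin D) (Fin D) 𝕜) : Prop where
  herm : ∀ x, (Φ x).conjTranspose = Φ x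
  surj : ∀ A : Matrix (Fin D) (Fin D) 𝕜, A.conjTranspose = A → ∃ x, Φ x = A
  iso : ∀ x, ∑ i, ∑ j, ‖Φ x i j‖ ^ 2 = ‖x‖ ^ 2

/-- In arbitrary linear coordinates: the Lorentz cones `{(x, t) | ‖x‖ ≤ t}`, `x ∈ ℝ^k`, `t ∈ ℝ` (`k = 0` is the
half-line), the cones of positive semidefinite real symmetric or complex Hermitian matrices of order
`D ≥ 1`, and all their products. -/
inductive SymmetricCone : ∀ {N : ℕ}, Set (Euc N) → Prop
  | lorentz {k N : ℕ} (e : (Euc k × Euc 1) ≃ₗ[ℝ] Euc N) :
      SymmetricCone (e '' {z | ‖z.1‖ ≤ z.2 0})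
  | psd (𝕜 : Type) [RCLike 𝕜] {D : ℕ} {ι : Type} [Fintype ι]
      (Φ : EuclideanSpace ℝ ι →ₗ[ℝ] Matrix (Fin D) (Fin D) 𝕜) {N : ℕ}
      (e : EuclideanSpace ℝ ι ≃ₗ[ℝ] Euc N) : 1 ≤ D → HermFrame Φ →
      SymmetricCone (e '' {x | (Φ x).PosSemidef})
  | prod {a b N : ℕ} (e : (Euc a × Euc b) ≃ₗ[ℝ] Euc N) {C : Set (Euc a)} {C' : Set (Euc b)} :
      SymmetricCone C → SymmetricCone C' → SymmetricCone (e '' (C ×ˢ C'))

/-- Bounded sets with nonempty interior of the form `K = {x ∈ ℝ^m | w + L x ∈ C}`, `L` linear, `C ⊂ ℝ^N` one of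
the cones above, `N ≤ m + q`. -/
structure ConicBody (q : ℕ) {m : ℕ} (K : Set (Euc m)) : Prop where
  bdd : Bornology.IsBounded K
  int : (interior K).Nonempty
  rep : ∃ (N : ℕ) (C : Set (Euc N)) (L : Euc m →ₗ[ℝ] Euc N) (w : Euc N), N ≤ m + q ∧
    SymmetricCone C ∧ K = {x | w + L x ∈ C}

/-- the boundary measure `μ⁺(S)`, the lower limit of `(μ(S_ε) - μ(S)) / ε` for the open
neighbourhoods `S_ε` of `S` -/
noncomputable def bdry {n : ℕ} (μ : Measure (Euc n)) (S : Set (Euc n)) : ℝ≥0∞ :=
  Filter.liminf (fun ε : ℝ => (μ (Metric.thickening ε S) - μ S) / ENNReal.ofReal ε)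
    (nhdsWithin 0 (Set.Ioi 0))

/-- `μ⁺(S) √σ ≥ c min(μ S, μ Sᶜ)` for all measurable sets `S` of measure one half and for every bound
`σ` of the variances of the marginals of `μ` in directions of length one -/
def KLSHalf {n : ℕ} (c : ℝ) (μ : Measure (Euc n)) : Prop :=
  ∀ σ : ℝ, 0 < σ →
    (∀ θ : Euc n, ‖θ‖ = 1 → ProbabilityTheory.variance (fun x => ⟪x, θ⟫_ℝ) μ ≤ σ) →
    ∀ S : Set (Euc n), MeasurableSet S → μ S = 1 / 2 →
      ENNReal.ofReal (c / Real.sqrt σ) * min (μ S) (μ Sᶜ) ≤ bdry μ S

/-- all linear images `μ` of the uniform measure on `K` satisfy `KLSHalf c μ` -/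
def ImagesKLS {m : ℕ} (c : ℝ) (K : Set (Euc m)) : Prop :=
  ∀ (n : ℕ) (L : Euc m →ₗ[ℝ] Euc n) (μ : Measure (Euc n)), μ = Measure.map L (unif K) →
    IsProbabilityMeasure μ ∧ KLSHalf c μ

theorem unif_prob {n : ℕ} {K : Set (Euc n)} (h1 : IsCompact K) (h3 : (interior K).Nonempty) :
    IsProbabilityMeasure (unif K) :=
  Pool.Agent.R754.KG.un_prob (Pool.Agent.R755.KF.vol_ne h3) h1.measure_lt_top.ne

theorem scn_of {N : ℕ} {C : Set (Euc N)} (h : SymmetricCone C) : Pool.Agent.N483.KM.SCn N C := by
  induction h with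
  | lorentz e => exact .lor _ _ e
  | psd 𝕜 Φ e hD hΦ => exact .psd 𝕜 _ _ Φ _ e hD ⟨hΦ.herm, hΦ.surj, hΦ.iso⟩
  | prod e _ _ ih ih' => exact .prod _ _ _ e _ _ ih ih'

theorem cpr_of {q m : ℕ} {K : Set (Euc m)} (h : ConicBody q K) :
    Pool.Agent.N483.KM.CPr q m K := by
  obtain ⟨N, C, L, w, hN, hC, hK⟩ := h.rep
  exact ⟨N, C, L, w, hN, scn_of hC, h.bdd, h.int, hK⟩

theorem affine_eq {m n : ℕ} (T : Euc m →ᵃ[ℝ] Euc n) (K : Set (Euc m)) :
    T '' K = (fun x => T 0 + T.linear x) '' K := by
  refine image_congr fun x _ => ?_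
  have h := T.map_vadd 0 x
  rw [vadd_eq_add, add_zero] at h
  rw [h, vadd_eq_add, add_comm]

theorem star_of (q p : ℕ) : ∃ c : ℝ, 0 < c ∧ ∀ (m n : ℕ) (K : Set (Euc m)) (T : Euc m →ᵃ[ℝ] Euc n),
    ConicBody q K → m ≤ n + p → Function.Surjective T → IsCompact (T '' K) ∧
    Convex ℝ (T '' K) ∧ (interior (T '' K)).Nonempty ∧
    Pool.Agent.Y506.RG.Star c (Pool.Agent.Y506.PV.ind (T '' K)) := by
  obtain ⟨c, hc, H⟩ := Pool.Agent.N483.KM.cpr_star q p
  refine ⟨c, hc, fun m n K T hK hm hT => ?_⟩
  rw [affine_eq]
  exact H m n K T.linear (T 0) (cpr_of hK) hm (by rwa [AffineMap.linear_surjective_iff])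

/-- Spectrahedra of small codimension: `{x ∈ ℝ^m | A_0 + ∑ x_i A_i ⪰ 0}` with Hermitian `D × D` matrices `A_i`
over `ℝ` or `ℂ` and `m + q ≥ dim Herm_D` (that is `D (D + 1) / 2` for `ℝ`, `D²` for `ℂ`). -/
theorem spectrahedra (𝕜 : Type) [RCLike 𝕜] {q m D : ℕ} (hD : 1 ≤ D)
    (A0 : Matrix (Fin D) (Fin D) 𝕜) (A : Fin m → Matrix (Fin D) (Fin D) 𝕜)
    (h0 : A0.conjTranspose = A0) (hA : ∀ i, (A i).conjTranspose = A i)
    (hq : Module.finrank ℝ (selfAdjoint (Matrix (Fin D) (Fin D) 𝕜)) ≤ m + q) {K : Set (Euc m)}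
    (hK : K = {x | (A0 + ∑ i, x i • A i).PosSemidef}) (hb : Bornology.IsBounded K)
    (hi : (interior K).Nonempty) : ConicBody q K := by
  obtain ⟨N, Φ, hΦ, hN⟩ := Pool.Agent.N814.KM.t_FRM 𝕜 D
  obtain ⟨w, hw⟩ := hΦ.surj A0 h0
  choose a ha using fun i => hΦ.surj (A i) (hA i)
  refine ⟨hb, hi, N, LinearEquiv.refl ℝ (Euc N) '' {x | (Φ x).PosSemidef},
    { toFun := fun x => ∑ i, x i • a i
      map_add' := fun x y => by simp [add_smul, Finset.sum_add_distrib]
      map_smul' := fun r x => by simp [Finset.smul_sum, smul_smul] }, w, hN.trans_le hq,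
    .psd 𝕜 Φ _ hD ⟨hΦ.herm, hΦ.surj, hΦ.iso⟩, ?_⟩
  rw [hK]
  ext x
  have h1 : Φ (w + ∑ i, x i • a i) = A0 + ∑ i, x i • A i := by
    rw [map_add, hw, map_sum]
    simp [ha]
  constructor
  · intro hx
    exact ⟨w + ∑ i, x i • a i, by change (Φ _).PosSemidef; rw [h1]; exact hx, rfl⟩
  · rintro ⟨y, hy, hy'⟩
    change y = w + ∑ i, x i • a i at hy'
    change (Φ y).PosSemidef at hy
    rw [hy', h1] at hy
    exact hy

/-- from the functional inequality to all linear images -/
theorem images_of {m : ℕ} {K : Set (Euc m)} (hK : IsCompact K) (hi : (interior K).Nonempty)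
    {c : ℝ} (hc : 0 < c) (hs : Pool.Agent.Y506.RG.Star c (Pool.Agent.Y506.PV.ind K)) (n : ℕ)
    (L : Euc m →ₗ[ℝ] Euc n) : IsProbabilityMeasure (Measure.map L (unif K)) ∧
      KLSHalf (1 / (4 * c)) (Measure.map L (unif K)) := by
  have hA := Pool.Agent.Y506.PV.adm_ind K hK.measurableSet hK.isBounded
    (Pool.Agent.Y506.PV.vol_pos hi)
  have h := Pool.Agent.Y506.RG.half_of_star Pool.Agent.Y429.RG.minkm hA c hc hs n L
    (Measure.map L (Pool.Agent.Y506.RG.pm (Pool.Agent.Y506.PV.ind K))) rfl
  rw [Pool.Agent.Y506.PV.pm_ind K hK.measurableSet] at h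
  obtain ⟨hp, H⟩ := h
  have hp' : IsProbabilityMeasure (Measure.map L (unif K)) := hp
  refine ⟨hp', fun s hs hvar S hS hS2 => ?_⟩
  refine le_trans ?_ (H s hs hvar S hS2)
  calc _ ≤ ENNReal.ofReal (1 / (4 * c) / Real.sqrt s) * 1 :=
        mul_le_mul_right ((min_le_left _ _).trans prob_le_one) _
    _ = _ := mul_one _

/-- **KLS for conic programs with few equations.** For all `q, p` there is a constant `c > 0` such that
for all bodies `K = {x | w + L x ∈ C} ⊂ ℝ^m`, where `C ⊂ ℝ^N`, `N ≤ m + q`, is a product of Lorentz cones and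
of cones of positive semidefinite real or complex matrices, all affine maps `T` of `ℝ^m` onto `ℝ^n`,
`m ≤ n + p`, and all linear maps `P : ℝ^n → ℝ^k`, the law `μ` of `P x`, `x` uniform on `T K`, is a probability
measure with `μ⁺(S) √‖Cov μ‖ ≥ c min(μ S, μ Sᶜ)` for all measurable `S` with `μ S = 1/2`. -/
theorem result : ∀ q p : ℕ, ∃ c : ℝ, 0 < c ∧
    ∀ (m n : ℕ) (K : Set (Euc m)) (T : Euc m →ᵃ[ℝ] Euc n), ConicBody q K → m ≤ n + p →
    Function.Surjective T → ImagesKLS c (T '' K) := by
  intro q p
  obtain ⟨c, hc, H⟩ := star_of q p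
  refine ⟨1 / (4 * c), by positivity, fun m n K T hK hm hT k L μ hμ => ?_⟩
  obtain ⟨h1, h2, h3, h4⟩ := H m n K T hK hm hT
  rw [hμ]
  exact images_of h1 h3 hc h4 k L

end Pool.Agent.Results.MP_6d896a_gt.ConicPrograms
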