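import Pool.Agent.N483.KM.Meas

/-!
# KLS for measures given by few sums of functions of blocks and parameters

Q1, for sets `S` of measure one half, for the laws of all linear images (marginals, in any dimension)
of the probability measures on `ℝ^m` with the following log-concave densities (uniform measures on
convex bodies included). Let first `m = n + d` and

`w(x, t) = exp(-∑_i U_i(L_i x, t))` if `∑_i V_ji(L_i x, t) ≤ e_j` for all `j < r`, and `0` otherwise;

more generally `w` is the projection of such a function, `w(y) = max {w(x, t) | T(x, t) = y}`, for an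
affine map `T` of `ℝ^{n+d}` onto `ℝ^m` with `n + d ≤ m + p`.

Here `x ∈ ℝ^n`, `L = (L_i)` is a linear map of `ℝ^n` into a product `∏ ℝ^{k_i}` of arbitrarily many blocks of
arbitrary dimensions with `∑ k_i ≤ n + s`, `t ∈ ℝ^d` are at most `s` common parameters, and the `U_i(y, t)`,
`V_ji(y, t)` are convex lower semicontinuous functions of `(y, t) ∈ ℝ^{k_i} × ℝ^d` with values in `(-∞, ∞]`
which have the symmetries of the block (as functions of `y`). The kinds of blocks are (`Block`):

* `small`: blocks of dimension at most `s`, and arbitrary functions;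
* `coordinates`: functions invariant under permutations and changes of signs of the coordinates;
* `rotations`: functions on a rotation invariant space of tuples of at most `s` real `N × N` matrices and at
  most `s N` vectors of `ℝ^N`, `N ≥ 3`, invariant under the rotations `X ↦ g X gᵀ`, `v ↦ g v`, `g ∈ SO(N)`;
* `hermitian`: functions of a symmetric or Hermitian matrix of order at least 3, invariant under
  conjugation by orthogonal or unitary matrices.

The image of `L` may be a proper subspace (of codimension at most `s`); it must be given by equations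
which are invariant under the symmetries (no condition for the blocks of small dimension). The constant
depends only on `r`, `s` and `p`, whatever the number and the dimensions of the blocks; the superlevel
sets of `w` have to be bounded, and one of them to have an interior; there are no other conditions on
`U_i`, `V_ji` and `e_j`. Examples:

* uniform measures on intersections of `r` generalised Orlicz balls `{x | ∑_i V_ji(x_i) ≤ e_j}`
  (`sums_of_ridge_functions`, `intersections_of_lp_balls`), cut by `s` more functionals or by subspaces of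
  codimension `s`; the same with blocks `x_i` in spaces of bounded dimension, or with 1-symmetric or
  unitarily invariant functions of vectors or matrices `x_i` of arbitrary dimensions, in arbitrary
  number: for example the intersections of the unit balls of `r` mixed norms `ℓ_{p_j}(X_ji)`, with
  different exponents `p_j` and different 1-symmetric norms or Schatten norms `X_ji` in the blocks; and
  products of measures on the blocks conditioned on such sets: `∏ exp(-U_i(x_i)) dx_i` conditioned on
  `∑_i V_ji(x_i) ≤ e_j`, `j < r`;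
* with parameters and projections: densities `exp (-Ψ(S_1(x), …, S_r(x)))` with `S_j(x) = ∑_i V_ji(x_i)` and
  `Ψ` convex and increasing in all variables (`U = Ψ(t)` and the constraints `S_j(x) ≤ t_j`); uniform
  measures on bodies `{x | f_1(x) + … + f_d(x) ≤ 1}` and densities `exp (-(f_1(x) + … + f_d(x)))`, `f_j` the
  Luxemburg norm of an Orlicz space (for example `‖x‖_p + ‖x‖_q`): the constraints are
  `∑_i M_j(x_i / t_j) t_j ≤ t_j`;
* canonical and microcanonical ensembles: `N` independent subsystems with few degrees of freedom each,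
  with `r` constraints `∑_i H_ji(x_i) ≤ e_j`, all `H_ji` convex.

Known: for uniform measures, the case `r = 1` of one-dimensional blocks is `OrliczBalls` (Kolesnikov and
Milman for some levels); sums of powers of invariant norms, `r = 1`, are `CompositeBodies`; products of
functions of `m + s` functionals (no constraints) are in the starting file `RidgeFunctions`. For
non-homogeneous functions of blocks, and for `r ≥ 2`, this is new as far as we know: the intersection
of two such bodies may have a volume exponentially smaller than those of the two bodies, so it is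
not a perturbation of one of them.

Method. Bodies (`w` an indicator function) first; let `d = 0`, let the `V_ji` be finite, nonnegative, with
quadratic growth, and `S_j(z) = ∑_i V_ji(z_i)`, `z ∈ ∏ ℝ^{k_i}`. (1) The Gibbs densities
`exp (-∑_j λ_j S_j(z) - ℓ(z))`, `λ_j > 0`, `ℓ` a linear combination of the (invariant) equations which define
the image of `L`, are products over the blocks of log-concave densities with the symmetries of the
blocks, so they satisfy a Poincare inequality with a universal constant in isotropic position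
(starting files `OneSymmetric`, `TensorTuples`, `SimultaneousConjugation`; for blocks of bounded dimension:
Brascamp-Lieb inequality on balls, and exponential decay). (2) Supporting functional: the volume
`R(e', u)` of `{S_j ≤ e'_j, ℓ_k = u_k}` is log-concave, so `R(e', u) ≤ 2 R(e, 0) exp(λ·(e' - e) + ⟪a, u⟫)` for
suitable `λ_j > 0` and `a`. (3) With these `λ, a` consider for large `M` the body
`B = {(z, e', y) | S_j(z) ≤ e'_j, |y_i| ≤ (1 - (λ·e' + ⟪a, u(z)⟫) / M)/2, i ≤ M}`. Its image under
`(z, e', y) ↦ (z, y)` is the body over `(1 - (λ·S(z) + ⟪a, u⟫) / M)₊`, for which the concentration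
of Lipschitz functions relative to the covariance, on a constant scale, follows from that for the
Gibbs density; so `B` has the same property (adding `r` dimensions, `CentredFibrations`: `lift`),
and `K × cube` is, by (2), one of its large sections of codimension at most `r + s`. So the theorem of
`LargeSections` gives the concentration for `K`. (4) General `V_ji` by approximation (Lipschitz
regularisation, which preserves the symmetries). (5) Parameters: the fibre of maximal volume over
`t ∈ ℝ^d` is of the form considered before, and by `LargeSections` (`extend`) the concentration passes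
from one large fibre to the whole body. (6) Densities: a log-concave density `w` on `ℝ^m` is the limit of
the marginals of the bodies `{(x, y) | |y_i| ≤ (1 + log w(x) / M)/2, i ≤ M}`, which are given by `r + 1` inequalities
with one more parameter. (7) The images under linear maps with kernels of dimension at most `p` and
the passage from the concentration of all linear images to the isoperimetric inequality are
those of `ImagesOfSections`.

The lemmas were formalised by helpers 27, 73, 78, 160, 170, 232, 234, 247, 263, 334, 383, 385, 426, 427, 438,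
456, 568, 603, 614, 624, 678, 697, 712, 756, 896, 930, 933, 986, the authors of the lemmas of `LargeSections`,
and 483.
-/

set_option autoImplicit false

namespace Pool.Agent.Results.MP_6d896a_gt.FewInequalities

open MeasureTheory Set
open scoped ENNReal InnerProductSpace Matrix

/-- Euclidean space of dimension `n` -/
abbrev Euc (n : ℕ) : Type := EuclideanSpace ℝ (Fin n)

/-- the probability measure on `ℝ^m` with density proportional to `w` -/
noncomputable def law {m : ℕ} (w : Euc m → ℝ) : Measure (Euc m) :=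
  (∫⁻ x, ENNReal.ofReal (w x))⁻¹ • volume.withDensity fun x => ENNReal.ofReal (w x)

/-- linear isometries of `ℝ^k` -/
abbrev Iso (k : ℕ) : Type := Euc k ≃ₗᵢ[ℝ] Euc k

/-- permutations and changes of signs of the coordinates -/
def signedPermutations (k : ℕ) : Set (Iso k) :=
  {g | ∃ σ : Equiv.Perm (Fin k), ∀ x i, |g x i| = |x (σ i)|}

/-- tuples of `q` real `N × N` matrices and `m` vectors of `ℝ^N`, with the Euclidean
(Hilbert-Schmidt) structure -/
abbrev Tup (q m N : ℕ) : Type := EuclideanSpace ℝ ((Fin q × (Fin N × Fin N)) ⊕ (Fin m × Fin N))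

/-- the matrix `X_j` of the tuple `x` -/
def mat {q m N : ℕ} (j : Fin q) (x : Tup q m N) : Matrix (Fin N) (Fin N) ℝ :=
  Matrix.of fun a b => x (Sum.inl (j, (a, b)))

/-- the vector `v_i` of the tuple `x` -/
def vec {q m N : ℕ} (i : Fin m) (x : Tup q m N) : Fin N → ℝ := fun a => x (Sum.inr (i, a))

/-- `g` is a rotation: `g ∈ SO(N)` -/
def Rotation {N : ℕ} (g : Matrix (Fin N) (Fin N) ℝ) : Prop := g * gᵀ = 1 ∧ g.det = 1

/-- `y` is the tuple `x` rotated by `g`: `X_j ↦ g X_j gᵀ`, `v_i ↦ g v_i` -/
def Rotated {q m N : ℕ} (g : Matrix (Fin N) (Fin N) ℝ) (x y : Tup q m N) : Prop :=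
  (∀ j, mat j y = g * mat j x * gᵀ) ∧ ∀ i, vec i y = g *ᵥ vec i x

/-- `ι` is a linear isometry of `ℝ^k` onto a rotation invariant space of tuples -/
def InvSubspace {k q m N : ℕ} (ι : Euc k →ₗᵢ[ℝ] Tup q m N) : Prop :=
  ∀ g : Matrix (Fin N) (Fin N) ℝ, Rotation g → ∀ x, ∃ y, Rotated g (ι x) (ι y)

/-- the rotations of the tuples, as isometries of `ℝ^k` -/
def rotations {k q m N : ℕ} (ι : Euc k →ₗᵢ[ℝ] Tup q m N) : Set (Iso k) :=
  {e | ∃ g, Rotation g ∧ ∀ x, Rotated g (ι x) (ι (e x))}

/-- `Φ` is a linear isometric parametrisation of the Hermitian `D × D` matrices over `𝕜` (`ℝ` or `ℂ`),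
with the Hilbert-Schmidt norm, by `ℝ^k` -/
structure HermFrame {𝕜 : Type} [RCLike 𝕜] {D k : ℕ} (Φ : Euc k →ₗ[ℝ] Matrix (Fin D) (Fin D) 𝕜) :
    Prop where
  herm : ∀ x, (Φ x).conjTranspose = Φ x
  surj : ∀ A : Matrix (Fin D) (Fin D) 𝕜, A.conjTranspose = A → ∃ x, Φ x = A
  iso : ∀ x, ∑ i, ∑ j, ‖Φ x i j‖ ^ 2 = ‖x‖ ^ 2

/-- the conjugations by unitary (orthogonal) matrices, as isometries of `ℝ^k` -/
def conjugations {𝕜 : Type} [RCLike 𝕜] {D k : ℕ} (Φ : Euc k →ₗ[ℝ] Matrix (Fin D) (Fin D) 𝕜) :
    Set (Iso k) :=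
  {g | ∃ U ∈ Matrix.unitaryGroup (Fin D) 𝕜, ∀ x, Φ (g x) = U * Φ x * U.conjTranspose}

/-- The admissible blocks: `ℝ^k` with a set `G` of symmetries which the functions of the block are
required to have: `k ≤ s` and any set, for example the empty one; permutations and changes of signs
of the coordinates; rotations of tuples of at most `s` matrices and `s N` vectors, `N ≥ 3`; conjugations
of Hermitian matrices of order `D ≥ 3`. -/
inductive Block (s : ℕ) : ∀ k : ℕ, Set (Iso k) → Prop
  | small (k : ℕ) (G : Set (Iso k)) : k ≤ s → Block s k G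
  | coordinates (k : ℕ) : 1 ≤ k → Block s k (signedPermutations k)
  | rotations (q m N k : ℕ) (ι : Euc k →ₗᵢ[ℝ] Tup q m N) : 3 ≤ N → q ≤ s → m ≤ s * N →
      InvSubspace ι → Block s k (rotations ι)
  | hermitian (𝕜 : Type) [RCLike 𝕜] (D k : ℕ) (Φ : Euc k →ₗ[ℝ] Matrix (Fin D) (Fin D) 𝕜) : 3 ≤ D →
      HermFrame Φ → Block s k (conjugations Φ)

/-- convex lower semicontinuous functions on `ℝ^k × ℝ^d` with values in `(-∞, ∞]` -/
structure ConvexLSC {k d : ℕ} (V : Euc k → Euc d → EReal) : Prop where
  ne_bot : ∀ y t, V y t ≠ ⊥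
  lsc : LowerSemicontinuous fun z : Euc k × Euc d => V z.1 z.2
  conv : ∀ (x y : Euc k) (t u : Euc d) (a : ℝ), 0 < a → a < 1 →
    V ((1 - a) • x + a • y) ((1 - a) • t + a • u) ≤
      ((1 - a : ℝ) : EReal) * V x t + (a : EReal) * V y u

/-- A system of sums of functions of `B` blocks: the dimensions `k_i` and the symmetries of the blocks, a
linear map `L = (L_i)` of `ℝ^n` into the product of the blocks, functions `U_i(y, t)` and `V_ji(y, t)`, `j < r`,
`y ∈ ℝ^{k_i}`, with parameters `t ∈ ℝ^d`, and real numbers `e_j`. -/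
structure System (r n d B : ℕ) where
  dim : Fin B → ℕ
  symm : ∀ i, Set (Iso (dim i))
  map : Euc n →ₗ[ℝ] (∀ i, Euc (dim i))
  potential : ∀ i, Euc (dim i) → Euc d → EReal
  fn : Fin r → ∀ i, Euc (dim i) → Euc d → EReal
  bound : Fin r → ℝ

/-- the set `{(x, t) ∈ ℝ^n × ℝ^d | ∑_i U_i(L_i x, t) ≤ c, ∑_i V_ji(L_i x, t) ≤ e_j for all j < r}` -/
def System.level {r n d B : ℕ} (S : System r n d B) (c : ℝ) : Set (Euc n × Euc d) :=
  {z | ∑ i, S.potential i (S.map z.1 i) z.2 ≤ (c : EReal) ∧
    ∀ j, ∑ i, S.fn j i (S.map z.1 i) z.2 ≤ (S.bound j : EReal)}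

/-- the functions have the symmetries of the blocks -/
structure System.Invariant {r n d B : ℕ} (S : System r n d B) : Prop where
  pot : ∀ i, ∀ g ∈ S.symm i, ∀ y t, S.potential i (g y) t = S.potential i y t
  fn : ∀ i, ∀ g ∈ S.symm i, ∀ j y t, S.fn j i (g y) t = S.fn j i y t

/-- For every symmetry `g` of the block `i` and all `y ∈ ℝ^{k_i}` there is `x` with `L_i x = g y - y` and
`L_j x = 0` for `j ≠ i` (the linear equations of the image of `L` are invariant; no condition if `L` is
surjective). -/
def System.Compatible {r n d B : ℕ} (S : System r n d B) : Prop :=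
  ∀ i, ∀ g ∈ S.symm i, ∀ y, ∃ x, S.map x i = g y - y ∧ ∀ j, j ≠ i → S.map x j = 0

/-- at most `s` parameters, `∑ k_i ≤ n + s`, admissible blocks, convex lower semicontinuous functions with
the symmetries of the blocks, bounded levels, one of them with nonempty interior -/
structure System.Admissible {r n d B : ℕ} (s : ℕ) (S : System r n d B) : Prop where
  params : d ≤ s
  dims : ∑ i, S.dim i ≤ n + s
  block : ∀ i, Block s (S.dim i) (S.symm i)
  convex_pot : ∀ i, ConvexLSC (S.potential i)
  convex_fn : ∀ j i, ConvexLSC (S.fn j i)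
  invariant : S.Invariant
  compatible : S.Compatible
  bdd : ∀ c, Bornology.IsBounded (S.level c)
  int : ∃ c, (interior (S.level c)).Nonempty

/-- `w ≥ 0` is a function on `ℝ^m` such that `{w ≥ e^{-c}}` is the image of the level `c` of an admissible
system under an affine map of `ℝ^{n+d}` onto `ℝ^m`, `n + d ≤ m + p`, for all real `c`. -/
structure BlockDensity (r s p : ℕ) {m : ℕ} (w : Euc m → ℝ) : Prop where
  nonneg : ∀ x, 0 ≤ w x
  rep : ∃ (n d B : ℕ) (S : System r n d B) (T : (Euc n × Euc d) →ᵃ[ℝ] Euc m), S.Admissible s ∧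
    n + d ≤ m + p ∧ Function.Surjective T ∧ ∀ c, {x | Real.exp (-c) ≤ w x} = T '' S.level c

/-- the boundary measure `μ⁺(S)`, the lower limit of `(μ(S_ε) - μ(S)) / ε` for the open
neighbourhoods `S_ε` of `S` -/
noncomputable def bdry {n : ℕ} (μ : Measure (Euc n)) (S : Set (Euc n)) : ℝ≥0∞ :=
  Filter.liminf (fun ε : ℝ => (μ (Metric.thickening ε S) - μ S) / ENNReal.ofReal ε)
    (nhdsWithin 0 (Set.Ioi 0))

/-- `μ⁺(S) √σ ≥ c min(μ S, μ Sᶜ)` for all measurable sets `S` of measure one half and for every bound
`σ` of the variances of the marginals of `μ` in directions of length one -/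
def KLSHalf {n : ℕ} (c : ℝ) (μ : Measure (Euc n)) : Prop :=
  ∀ σ : ℝ, 0 < σ →
    (∀ θ : Euc n, ‖θ‖ = 1 → ProbabilityTheory.variance (fun x => ⟪x, θ⟫_ℝ) μ ≤ σ) →
    ∀ S : Set (Euc n), MeasurableSet S → μ S = 1 / 2 →
      ENNReal.ofReal (c / Real.sqrt σ) * min (μ S) (μ Sᶜ) ≤ bdry μ S

/-- all linear images `μ` of the probability measure with density proportional to `w` satisfy
`KLSHalf c μ` -/
def ImagesKLS {m : ℕ} (c : ℝ) (w : Euc m → ℝ) : Prop :=
  ∀ (n : ℕ) (L : Euc m →ₗ[ℝ] Euc n) (μ : Measure (Euc n)), μ = Measure.map L (law w) →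
    IsProbabilityMeasure μ ∧ KLSHalf c μ

theorem rotated_iff {q m N : ℕ} (g : Matrix (Fin N) (Fin N) ℝ) (x y : Tup q m N) :
    Rotated g x y ↔ y = Pool.Agent.TH591.TT.RR g x := by
  constructor
  · rintro ⟨h1, h2⟩
    refine Pool.Agent.TH591.TT.ext_mv h1 ?_
    ext a i
    exact congrFun (h2 i) a
  · intro h1
    subst h1
    exact ⟨fun j => rfl, fun i => rfl⟩

theorem rotation_iff {N : ℕ} (g : Matrix (Fin N) (Fin N) ℝ) :
    Rotation g ↔ Pool.Agent.TH591.TT.IsSO g := by
  constructor
  · rintro ⟨h1, h2⟩
    exact ⟨(Matrix.mem_orthogonalGroup_iff (Fin N) ℝ).2 h1, h2⟩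
  · rintro ⟨h1, h2⟩
    exact ⟨Pool.Agent.TH591.TT.orth1 h1, h2⟩

theorem bk_of {s k : ℕ} {G : Set (Iso k)} (h : Block s k G) : Pool.Agent.N483.KM.Bk s k G := by
  cases h with
  | small _ _ h => exact .small k G h
  | coordinates _ h => exact .coord k h
  | rotations q m N _ ι h1 h2 h3 h4 =>
    have h5 : rotations ι = Pool.Agent.TH591.TT.GS (κ := Fin k) ι := by
      ext e
      constructor
      · rintro ⟨g, hg, he⟩
        exact ⟨g, (rotation_iff g).1 hg, fun x => (rotated_iff g _ _).1 (he x)⟩
      · rintro ⟨g, hg, he⟩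
        exact ⟨g, (rotation_iff g).2 hg, fun x => (rotated_iff g _ _).2 (he x)⟩
    rw [h5]
    refine .rot q m N k ι h1 h2 h3 fun g hg x => ?_
    obtain ⟨y, hy⟩ := h4 g ((rotation_iff g).2 hg) x
    exact ⟨y, (rotated_iff g _ _).1 hy⟩
  | hermitian 𝕜 D _ Φ h1 h2 => exact .herm 𝕜 D k Φ h1 ⟨h2.herm, h2.surj, h2.iso⟩

theorem xp_of {k d : ℕ} {V : Euc k → Euc d → EReal} (h : ConvexLSC V) :
    Pool.Agent.N483.KM.XP V := ⟨h.ne_bot, h.lsc, h.conv⟩

theorem vmd_of {r s p m : ℕ} {w : Euc m → ℝ} (h : BlockDensity r s p w) :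
    ∃ a, Pool.Agent.N483.KM.VMd r s p m fun x => w (a + x) := by
  obtain ⟨n, d, B, S, T, h1, h2, h3, h4⟩ := h.rep
  have hT : ∀ z, T z = T 0 + T.linear z := by
    intro z
    have h5 := T.map_vadd 0 z
    rw [vadd_eq_add, add_zero] at h5
    rw [h5, vadd_eq_add, add_comm]
  have hlev : ∀ c : ℝ, Pool.Agent.N483.KM.BP S.map (Fin.cons S.potential S.fn)
      (Function.update (Fin.cons 0 S.bound) 0 c) = S.level c := by
    intro c
    ext z
    constructor
    · intro hz
      refine ⟨?_, fun j => ?_⟩
      · have := hz 0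
        simpa using this
      · have := hz j.succ
        simpa using this
    · rintro ⟨hz1, hz2⟩ j
      refine Fin.cases ?_ (fun j => ?_) j
      · simpa using hz1
      · simpa using hz2 j
  refine ⟨T 0, B, n, d, S.dim, S.symm, S.map, Fin.cons S.potential S.fn, Fin.cons 0 S.bound,
    T.linear, h1.params, h2, by rwa [AffineMap.linear_surjective_iff], h1.dims,
    fun i => bk_of (h1.block i), fun j => ?_, fun i g hg j => ?_, fun i g hg y => ?_, fun c => ?_,
    ?_, fun x => h.nonneg _, fun c => ?_⟩
  · refine Fin.cases (fun i => ?_) (fun j i => ?_) j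
    · exact xp_of (h1.convex_pot i)
    · exact xp_of (h1.convex_fn j i)
  · refine Fin.cases (fun x t => ?_) (fun j x t => ?_) j
    · exact h1.invariant.pot i g hg x t
    · exact h1.invariant.fn i g hg j x t
  · obtain ⟨x, hx, hx'⟩ := h1.compatible i g hg y
    refine ⟨x, funext fun j => ?_⟩
    by_cases hj : j = i
    · subst hj
      rw [Pi.single_eq_same]
      exact hx
    · rw [Pi.single_eq_of_ne hj]
      exact hx' j hj
  · rw [hlev]
    exact h1.bdd c
  · obtain ⟨c, hc⟩ := h1.int
    exact ⟨c, by rwa [hlev]⟩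
  · rw [hlev]
    ext x
    have h6 : x ∈ {x | Real.exp (-c) ≤ w (T 0 + x)} ↔ T 0 + x ∈ T '' S.level c := by
      rw [← h4 c]
      rfl
    rw [h6]
    constructor
    · rintro ⟨z, hz, hz2⟩
      refine ⟨z, hz, ?_⟩
      rw [hT] at hz2
      exact add_left_cancel hz2
    · rintro ⟨z, hz, rfl⟩
      exact ⟨z, hz, hT z⟩

/-- the functional `⟪v, x⟫` as a map to `ℝ^1` -/
noncomputable def ridge {m : ℕ} (v : Euc m) : Euc m →ₗ[ℝ] Euc 1 where
  toFun x := WithLp.toLp 2 fun _ => ⟪v, x⟫_ℝ
  map_add' x y := by
    ext i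
    simp [inner_add_right]
  map_smul' c x := by
    ext i
    simp [inner_smul_right]

/-- the coordinates `(x, 0) ↦ x` -/
def noParameters (m : ℕ) : (Euc m × Euc 0) ≃ₗ[ℝ] Euc m where
  toFun z := z.1
  map_add' x y := rfl
  map_smul' c x := rfl
  invFun x := (x, 0)
  left_inv z := Prod.ext rfl (Subsingleton.elim _ _)
  right_inv x := rfl

/-- Example: densities `exp (-∑_i U_i(⟪v_i, x⟫))` restricted to `{x | ∑_i V_ji(⟪v_i, x⟫) ≤ e_j for all j < r}`,
`i < N`, `N ≤ m + s`, with arbitrary convex lower semicontinuous functions `U_i, V_ji : ℝ → (-∞, ∞]`. -/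
theorem sums_of_ridge_functions (r s m N : ℕ) (v : Fin N → Euc m) (U : Fin N → ℝ → EReal)
    (V : Fin r → Fin N → ℝ → EReal) (e : Fin r → ℝ) (hs : 1 ≤ s) (hN : N ≤ m + s)
    (g1 : ∀ i t, U i t ≠ ⊥) (g2 : ∀ i, LowerSemicontinuous (U i))
    (g3 : ∀ i, ∀ x y t : ℝ, 0 < t → t < 1 → U i ((1 - t) * x + t * y) ≤
      ((1 - t : ℝ) : EReal) * U i x + (t : EReal) * U i y)
    (h1 : ∀ j i t, V j i t ≠ ⊥) (h2 : ∀ j i, LowerSemicontinuous (V j i))
    (h3 : ∀ j i, ∀ x y t : ℝ, 0 < t → t < 1 → V j i ((1 - t) * x + t * y) ≤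
      ((1 - t : ℝ) : EReal) * V j i x + (t : EReal) * V j i y)
    {K : ℝ → Set (Euc m)} (hK : ∀ c : ℝ, K c = {x | ∑ i, U i ⟪v i, x⟫_ℝ ≤ (c : EReal) ∧
      ∀ j, ∑ i, V j i ⟪v i, x⟫_ℝ ≤ (e j : EReal)})
    (hb : ∀ c, Bornology.IsBounded (K c)) (hi : ∃ c, (interior (K c)).Nonempty)
    {w : Euc m → ℝ} (hw0 : ∀ x, 0 ≤ w x) (hw : ∀ c : ℝ, {x | Real.exp (-c) ≤ w x} = K c) :
    BlockDensity r s 0 w := by
  have hx : ∀ (W : ℝ → EReal), (∀ t, W t ≠ ⊥) → LowerSemicontinuous W →
      (∀ x y t : ℝ, 0 < t → t < 1 → W ((1 - t) * x + t * y) ≤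
      ((1 - t : ℝ) : EReal) * W x + (t : EReal) * W y) →
      ConvexLSC fun (y : Euc 1) (_ : Euc 0) => W (y 0) := by
    intro W w1 w2 w3
    refine ⟨fun y t => w1 _, ?_, fun x y t u a ha ha1 => ?_⟩
    · exact w2.comp (by fun_prop : Continuous fun z : Euc 1 × Euc 0 => z.1 0)
    · have h := w3 (x 0) (y 0) a ha ha1
      simpa using h
  let S : System r m 0 N := ⟨fun _ => 1, fun _ => ∅, LinearMap.pi fun i => ridge (v i),
    fun i y _ => U i (y 0), fun j i y _ => V j i (y 0), e⟩
  have hS : ∀ c, (noParameters m) '' S.level c = K c := by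
    intro c
    rw [hK]
    ext x
    constructor
    · rintro ⟨z, ⟨hz1, hz2⟩, rfl⟩
      exact ⟨hz1, fun j => hz2 j⟩
    · intro hx
      exact ⟨(x, 0), ⟨hx.1, fun j => hx.2 j⟩, rfl⟩
  have hS' : ∀ c, S.level c = (noParameters m).symm '' K c := by
    intro c
    rw [← hS c, image_image]
    simp
  have hcont : Continuous (noParameters m).symm :=
    (noParameters m).symm.toLinearMap.continuous_of_finiteDimensional
  refine ⟨hw0, m, 0, N, S, (noParameters m).toLinearMap.toAffineMap, ⟨Nat.zero_le _,
    by simpa [S] using hN, fun i => .small 1 ∅ hs, fun i => hx _ (g1 i) (g2 i) (g3 i),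
    fun j i => hx _ (h1 j i) (h2 j i) (h3 j i), ⟨fun i g hg => absurd hg (notMem_empty g),
    fun i g hg => absurd hg (notMem_empty g)⟩, fun i g hg => absurd hg (notMem_empty g),
    fun c => ?_, ?_⟩, by simp, (noParameters m).surjective, fun c => ?_⟩
  · rw [hS']
    exact (noParameters m).symm.toContinuousLinearEquiv.toContinuousLinearMap.lipschitz
      |>.isBounded_image (hb c)
  · obtain ⟨c, hc⟩ := hi
    refine ⟨c, ?_⟩
    have h4 : (noParameters m).symm.toContinuousLinearEquiv.toHomeomorph '' interior (K c) =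
        interior ((noParameters m).symm.toContinuousLinearEquiv.toHomeomorph '' (K c)) :=
      Homeomorph.image_interior _ _
    have h5 : (noParameters m).symm.toContinuousLinearEquiv.toHomeomorph '' (K c) =
        S.level c := (hS' c).symm
    rw [h5] at h4
    rw [← h4]
    exact hc.image _
  · rw [hw, ← hS]
    rfl

theorem coe_sum {ι : Type} (s : Finset ι) (f : ι → ℝ) :
    ((∑ i ∈ s, f i : ℝ) : EReal) = ∑ i ∈ s, (f i : EReal) :=
  map_sum (⟨⟨Real.toEReal, rfl⟩, EReal.coe_add⟩ : ℝ →+ EReal) f s

/-- Example: the measures `exp (-∑_i b_i |x_i - z_i|^{q_i}) dx` restricted to the intersections of `r` balls of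
weighted `ℓ_p` norms, with different exponents, centres and weights, `p, q ≥ 1`:
`{x ∈ ℝ^m | ∑_i a_ji |x_i - y_ji|^{p_ji} ≤ e_j for all j < r}`. -/
theorem intersections_of_lp_balls (r m : ℕ) (a y p : Fin r → Fin m → ℝ) (e : Fin r → ℝ)
    (b z q : Fin m → ℝ) (ha : ∀ j i, 0 ≤ a j i) (hp : ∀ j i, 1 ≤ p j i) (hb : ∀ i, 0 ≤ b i)
    (hq : ∀ i, 1 ≤ q i) {K : Set (Euc m)}
    (hK : K = {x | ∀ j, ∑ i, a j i * |x i - y j i| ^ p j i ≤ e j})
    (hbd : Bornology.IsBounded K) (hi : (interior K).Nonempty) :
    BlockDensity r 1 0 (K.indicator fun x => Real.exp (-∑ i, b i * |x i - z i| ^ q i)) := by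
  have lsc : ∀ a y p : ℝ, 1 ≤ p →
      LowerSemicontinuous fun t : ℝ => ((a * |t - y| ^ p : ℝ) : EReal) := by
    intro a y p hp
    refine (continuous_coe_real_ereal.comp ?_).lowerSemicontinuous
    exact continuous_const.mul (((continuous_id.sub continuous_const).abs).rpow_const
      fun _ => Or.inr (by linarith))
  have cvx : ∀ a y p : ℝ, 0 ≤ a → 1 ≤ p → ∀ u v t : ℝ, 0 < t → t < 1 →
      ((a * |(1 - t) * u + t * v - y| ^ p : ℝ) : EReal) ≤
      ((1 - t : ℝ) : EReal) * ((a * |u - y| ^ p : ℝ) : EReal) +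
      (t : EReal) * ((a * |v - y| ^ p : ℝ) : EReal) := by
    intro a y p ha hp u v t ht ht1
    rw [← EReal.coe_mul, ← EReal.coe_mul, ← EReal.coe_add, EReal.coe_le_coe_iff]
    have h1 := (convexOn_rpow hp).2 (abs_nonneg (u - y)) (abs_nonneg (v - y))
      (by linarith : (0 : ℝ) ≤ 1 - t) ht.le (by ring)
    have h2 : |(1 - t) * u + t * v - y| ≤ (1 - t) * |u - y| + t * |v - y| := by
      have h3 : (1 - t) * u + t * v - y = (1 - t) * (u - y) + t * (v - y) := by ring
      rw [h3]
      refine (abs_add_le _ _).trans (le_of_eq ?_)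
      rw [abs_mul, abs_mul, abs_of_pos ht, abs_of_pos (by linarith : (0 : ℝ) < 1 - t)]
    have h4 := Real.rpow_le_rpow (abs_nonneg _) h2 (by linarith : (0 : ℝ) ≤ p)
    simp only [smul_eq_mul] at h1
    have h5 := mul_le_mul_of_nonneg_left (h4.trans h1) ha
    linarith
  have hmem : ∀ x, x ∈ K ↔ ∀ j, ∑ i, ((a j i * |x i - y j i| ^ p j i : ℝ) : EReal) ≤
      (e j : EReal) := by
    intro x
    rw [hK]
    refine forall_congr' fun j => ?_
    rw [← coe_sum, EReal.coe_le_coe_iff]
  have hU : Continuous fun x : Euc m => ∑ i, b i * |x i - z i| ^ q i :=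
    continuous_finsetSum _ fun i _ => continuous_const.mul
      (((by fun_prop : Continuous fun x : Euc m => x i - z i).abs).rpow_const
        fun _ => Or.inr (by linarith [hq i]))
  refine sums_of_ridge_functions r 1 m m (fun i => EuclideanSpace.single i 1)
    (fun i t => ((b i * |t - z i| ^ q i : ℝ) : EReal))
    (fun j i t => ((a j i * |t - y j i| ^ p j i : ℝ) : EReal)) e le_rfl (Nat.le_succ m)
    (fun i t => EReal.coe_ne_bot _) (fun i => lsc _ _ _ (hq i)) (fun i => cvx _ _ _ (hb i) (hq i))
    (fun j i t => EReal.coe_ne_bot _) (fun j i => lsc _ _ _ (hp j i))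
    (fun j i => cvx _ _ _ (ha j i) (hp j i))
    (K := fun c => {x | ∑ i, b i * |x i - z i| ^ q i ≤ c} ∩ K) (fun c => ?_)
    (fun c => hbd.subset inter_subset_right) ?_ (fun x => ?_) (fun c => ?_)
  · ext x
    simp only [EuclideanSpace.inner_single_left, map_one, one_mul]
    rw [mem_inter_iff, hmem, mem_ofPred_eq, mem_ofPred_eq, ← coe_sum, EReal.coe_le_coe_iff]
  · obtain ⟨x, hx⟩ := hi
    refine ⟨(∑ i, b i * |x i - z i| ^ q i) + 1, x, ?_⟩
    rw [interior_inter]
    refine ⟨?_, hx⟩
    have h1 : IsOpen {u : Euc m | ∑ i, b i * |u i - z i| ^ q i <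
        (∑ i, b i * |x i - z i| ^ q i) + 1} := isOpen_lt hU continuous_const
    refine interior_maximal (fun u hu => ?_) h1 ?_
    · have h2 : ∑ i, b i * |u i - z i| ^ q i < (∑ i, b i * |x i - z i| ^ q i) + 1 := hu
      exact h2.le
    · have h2 : ∑ i, b i * |x i - z i| ^ q i < (∑ i, b i * |x i - z i| ^ q i) + 1 := lt_add_one _
      exact h2
  · exact indicator_nonneg (fun x _ => (Real.exp_pos _).le) x
  · ext x
    by_cases hx : x ∈ K
    · simp [hx]
    · simp only [mem_ofPred_eq, indicator_of_notMem hx, mem_inter_iff, hx, and_false, iff_false,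
        not_le]
      exact Real.exp_pos _

/-- **KLS for measures given by few sums of functions of blocks and parameters.** For all `r, s, p` there
is a constant `c > 0` such that for all densities `w` on `ℝ^m` given by a potential and `r` inequalities
between sums of convex functions of blocks and at most `s` parameters, projected along at most `p`
dimensions (`BlockDensity r s p`), and all linear maps `L : ℝ^m → ℝ^k`, the law `μ` of `L x`, `x` with
density proportional to `w`, is a probability measure with `μ⁺(S) √‖Cov μ‖ ≥ c min(μ S, μ Sᶜ)` for all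
measurable `S` with `μ S = 1/2`. -/
theorem result : ∀ r s p : ℕ, ∃ c : ℝ, 0 < c ∧
    ∀ (m : ℕ) (w : Euc m → ℝ), BlockDensity r s p w → ImagesKLS c w := by
  intro r s p
  obtain ⟨c, hc, H⟩ := Pool.Agent.N483.KM.vmd_star r s p
  refine ⟨1 / (4 * c), by positivity, fun m w hw k L μ hμ => ?_⟩
  obtain ⟨a, ha⟩ := vmd_of hw
  obtain ⟨h1, h2⟩ := Pool.Agent.N483.KM.vmd_shift H a ha
  obtain ⟨hp, h3⟩ := Pool.Agent.N483.KM.half_law h1 hc h2 k L μ hμ
  refine ⟨hp, fun s hs hvar S hS hS2 => ?_⟩
  refine le_trans ?_ (h3 s hs hvar S hS2)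
  calc _ ≤ ENNReal.ofReal (1 / (4 * c) / Real.sqrt s) * 1 :=
        mul_le_mul_right ((min_le_left _ _).trans prob_le_one) _
    _ = _ := mul_one _

end Pool.Agent.Results.MP_6d896a_gt.FewInequalities
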