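import Pool.Agent.N483.KM.ClsM2

/-!
# The KLS inequality for a log-concave measure and for one of its large sections

Q1, for sets `S` of measure one half, for the laws of all linear images (marginals, in any dimension)
of the probability measures whose densities belong to a class `Sectional` of log-concave functions on
Euclidean spaces (uniform measures on convex bodies included) which is closed under the following
operations. The constant depends on `s` and on the number `h` of operations (and on `A`), but not on
the dimensions.

* (A) Large sections (`large`; this is new): for a density `w` on `ℝ^N × ℝ^j`, `j ≤ s`, of the class, the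
  density `w(·, t)` on `ℝ^N` (the conditional law of `x` given `t`) belongs to the class if the integrals of
  `w(·, t')` are at most `s ∫ w(·, t)`. So the class is closed under all conditionings of `s` linear
  functionals to values whose density is not much smaller than the largest possible. This
  includes the sections over the barycentre (`central`).
* (B) Extensions (`extend`; this is new): conversely, every log-concave density `w` on `ℝ^N × ℝ^j`, `j ≤ s`,
  belongs to the class if ONE density `w(·, t)` does, with `∫ w(·, t') ≤ s ∫ w(·, t)` for all `t'`. So, up to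
  constants, the inequality of Kannan, Lovasz and Simonovits for a log-concave measure is equivalent
  to the inequality for one of its large sections of bounded codimension.
* (C) Factors of bounded rank (`factor`; this is new): if the densities `w(x, t) e^{⟪a, t⟫}`, `a ∈ ℝ^j`, `j ≤ s`,
  belong to the class, so do all densities `w(x, t) φ(t)` with log-concave `φ` (for example the
  restrictions of `w` to `{t ∈ C}`, `C` convex): only the tilts by the functionals which occur in `φ` are
  needed.
* (D) Maximal marginals `u(y) = max {w(x) | T x = y}` along at most `s` dimensions (`projection`), and,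
  conversely, all log-concave densities `w` with a maximal marginal of the class along at most `s`
  dimensions (`lift`); marginals (`marginal`), translations (`translate`), products (`product`).

The class starts with the log-concave densities `w` for which the law `law w` has `WeakPoincare A`, that
is weak Poincare inequalities `Var v ≤ δ + A(δ) σ E ‖∇ v‖²` for all linear images with variances at most
`σ`, all `δ > 0` and `|v| ≤ 1`, where `A` is any function which is fixed in advance. Measures with a
Poincare inequality with constant `c₀` in isotropic position have `A(δ) = c₀ / (4 δ)`. All measures of the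
class satisfy such inequalities, with another function `A` (`weakPoincare`). So (A) says that the
inequality of Kannan, Lovasz and Simonovits is inherited by large sections: for instance all central
sections of bounded codimension of the products of log-concave measures on the line, of the measures
of `FewInequalities`, and of the bodies of `CentredFibrations`, `CompositeBodies`, `Particles`, ... satisfy it. By
(B) it passes from there to all log-concave measures which have such a measure as a large section;
one may go from measure to section to measure and so on.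

Method. First for uniform measures on convex bodies. Let `C = K_t` be a section of codimension `j` of a
body `K ⊂ ℝ^N × ℝ^j` for which concentration is known, and let `P` be a linear map on `ℝ^N` such that `P x`
has variances at most `σ` on `C`. (1) Regression: there is a linear map `B` such that `P x - B t` has
variances at most `C' σ` on `K`, with `C'` depending on `j` and on the ratio of `|K_t|` and the maximal
volume of the parallel sections (bounds for isotropic log-concave densities in dimension `j + 1`).
So the same is true for all other large sections, and the means of `P x - B t` on them are near to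
each other. (2) Let `r` be the concentration radius of the law `ν_t` of `P x - B t` on `K_t`: the number for
which all sets of measure at least `p` have `r`-neighbourhoods of measure more than one half, for a
fixed small `p`. Prekopa-Leindler inequality in the Gaussian channel: all sets of measure `4^-(i+j0)`
have such neighbourhoods with radius `(9/8)^i r`. So Lipschitz functions have fourth moments `C r⁴`, and
smoothing with posterior means (whose gradients are controlled by posterior variances, and these by
the Brascamp-Lieb inequality) gives weak Poincare inequalities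
`Var f ≤ C / M^{3/2} + M r² E‖∇f‖² / 64` for `|f| ≤ 1`, all `M ≥ 1`. (3) For two sections `a, b` with
`|K_m| ≤ (1 + η) √(|K_a| |K_b|)` for the one half way between them, the affinity of the laws of
`P x - B t + √h Z` satisfies `1 - aff ≤ C (η + D²/h + δ)` at the scale `h = M r²`, and `h (η + 1 - aff_h)` is
nondecreasing in `h`, by the Prekopa-Leindler inequality and the heat equation. Since `M · M^{-3/2} → 0`,
also the affinity at a small multiple of `r²` is near to one, if `r` is much larger than `√σ`. (4) So if
the concentration radius of one section in a small window of parallel sections is (nearly) the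
largest one and much larger than `√σ`, then there is a Lipschitz function with constant `4 / r` and a
variance bounded below on all sections of the window, hence on `K`, which contradicts the
concentration for `K`. For sections of maximal volume the window has a definite share of `K`. (5) All
other large sections are connected with the maximal one by a bounded number of steps as in (3), and
the concentration radii of two neighbours differ by at most a constant factor. (6) Lipschitz
functions of `P x` on `K_t` have fourth moments at most `C σ²`, so they concentrate. (7) Extensions: by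
(5) the concentration radius of one large section bounds those of all other large sections, and the
concentration on all large sections implies that on `K`. (8) Densities: `w` is the limit, for `M → ∞`, of
the marginals of the bodies `K_M = {(x, y) | y ∈ ℝ^M, |y_i| ≤ (1 + log w(x) / M) / 2}`, `w` bounded by 1, and
concentration passes from `w` to `K_M` (the law of `x` given `y` on `K_M` is near to `w`, and the
coordinates of `y` are nearly independent and uniform) and back; the sections and projections of `K_M`
are again of this form. (9) Factors `φ(t)`: a large section of `K_M` for `w φ` over a value `t` where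
`w φ` has its maximal marginal is a large section of `w(x, t) e^{⟪a, t⟫}` for a suitable `a`, since the
marginal of `w` in `t` has a supporting functional there. The passage from the concentration of all
linear images to the isoperimetric inequality is that of `ImagesOfSections`.

Formalised by helpers 27, 73, 78, 123, 130, 152, 157, 227, 232, 264, 277, 306, 334, 342, 348, 383, 385, 401,
426, 434, 438, 456, 482, 488, 521, 523, 546, 558, 692, 697, 711, 833, 868, 930 and 483 with the starting library
(modules `R755.KF`, `R755.KS`, `R754.KG`).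
-/

set_option autoImplicit false

namespace Pool.Agent.Results.MP_6d896a_gt.LargeSections

open MeasureTheory Set
open scoped ENNReal InnerProductSpace

/-- Euclidean space of dimension `n` -/
abbrev Euc (n : ℕ) : Type := EuclideanSpace ℝ (Fin n)

/-- the probability measure on `ℝⁿ` with density proportional to `w` -/
noncomputable def law {n : ℕ} (w : Euc n → ℝ) : Measure (Euc n) :=
  (∫⁻ x, ENNReal.ofReal (w x))⁻¹ • volume.withDensity fun x => ENNReal.ofReal (w x)

/-- The inequalities `Var v(P x) ≤ δ + A(δ) σ E ‖∇ v(P x)‖²` for all `δ > 0`, all linear images `P x` of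
`x` (of law `μ`), all bounds `σ` for the variances of the marginals of `P x` in directions of length
one, and all `C¹` functions `v` with `|v| ≤ 1` and bounded gradient. They follow, with
`A(δ) = c₀ / (4 δ)`, from the Poincare inequality with constant `c₀` for `μ` in isotropic position. -/
def WeakPoincare (A : ℝ → ℝ) {M : ℕ} (μ : Measure (Euc M)) : Prop :=
  ∀ δ : ℝ, 0 < δ → ∀ (k : ℕ) (P : Euc M →ₗ[ℝ] Euc k) (σ : ℝ), 0 < σ →
  (∀ θ : Euc k, ‖θ‖ = 1 → ProbabilityTheory.variance (fun x => ⟪P x, θ⟫_ℝ) μ ≤ σ) →
  ∀ (v : Euc k → ℝ) (C : ℝ), ContDiff ℝ 1 v → (∀ y, |v y| ≤ 1) → (∀ y, ‖fderiv ℝ v y‖ ≤ C) →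
  ProbabilityTheory.variance (fun x => v (P x)) μ ≤ δ + A δ * σ * ∫ x, ‖fderiv ℝ v (P x)‖ ^ 2 ∂μ

/-- nonnegative log-concave functions -/
structure LogConcave {n : ℕ} (w : Euc n → ℝ) : Prop where
  nonneg : ∀ x, 0 ≤ w x
  conc : ∀ x y, ∀ t : ℝ, 0 < t → t < 1 → w x ^ (1 - t) * w y ^ t ≤ w ((1 - t) • x + t • y)

/-- upper semicontinuous log-concave functions with a finite and positive integral -/
structure Density {n : ℕ} (w : Euc n → ℝ) : Prop where
  logConcave : LogConcave w
  usc : UpperSemicontinuous w
  int : Integrable w
  pos : 0 < ∫ x, w x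

/-- the density over `t` of the density `w` on `ℝⁿ ≅ ℝ^N × ℝ^j` (not normalised) -/
def fibre {N j n : ℕ} (e : (Euc N × Euc j) ≃ₗ[ℝ] Euc n) (w : Euc n → ℝ) (t : Euc j) :
    Euc N → ℝ := fun x => w (e (x, t))

/-- the product `w(x) u(y)`, as a density on `ℝⁿ ≅ ℝ^a × ℝ^b` -/
def tensor {a b n : ℕ} (e : (Euc a × Euc b) ≃ₗ[ℝ] Euc n) (w : Euc a → ℝ) (u : Euc b → ℝ) :
    Euc n → ℝ := fun z => w (e.symm z).1 * u (e.symm z).2

/-- the density `w(x, t) φ(t)` on `ℝⁿ ≅ ℝ^N × ℝ^j` -/
def weighted {N j n : ℕ} (e : (Euc N × Euc j) ≃ₗ[ℝ] Euc n) (w : Euc n → ℝ) (φ : Euc j → ℝ) :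
    Euc n → ℝ := fun z => w z * φ (e.symm z).2

/-- `u` is the maximal marginal of `w` under `T`: `{u ≥ c} = T {w ≥ c}` for all `c > 0`, that is
`u(y) = max {w(x) | T x = y}` -/
def MaxMarginal {m n : ℕ} (T : Euc m →ₗ[ℝ] Euc n) (w : Euc m → ℝ) (u : Euc n → ℝ) : Prop :=
  ∀ c : ℝ, 0 < c → {y | c ≤ u y} = T '' {x | c ≤ w x}

/-- The class of densities. It contains the densities `w` such that `law w` satisfies `WeakPoincare A`
(`base`). Densities of depth `h + 1` are obtained from those of depth `h` by
* translations (`translate`), marginals under arbitrary surjective linear maps (`marginal`) and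
  products (`product`);
* `projection`: maximal marginals under surjective linear maps with kernels of dimension at most `s`,
  and `lift`: all densities `w` with such a maximal marginal of depth `h`;
* `large`: the densities over `t ∈ ℝ^j`, `j ≤ s`, such that the integrals over the parallel fibres are at
  most `s` times larger, and `central`: those over the barycentre;
* `extend`: all densities `w` on `ℝ^N × ℝ^j`, `j ≤ s`, which have one fibre density over some `t` of depth
  `h` such that the integrals over the parallel fibres are at most `s` times larger;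
* `factor`: the densities `w(x, t) φ(t)`, `t ∈ ℝ^j`, `j ≤ s`, `φ` log-concave, such that all densities
  `w(x, t) e^{⟪a, t⟫}` are of depth `h`. -/
inductive Sectional (A : ℝ → ℝ) (s : ℕ) : ℕ → ∀ {n : ℕ}, (Euc n → ℝ) → Prop
  | base {n : ℕ} {w : Euc n → ℝ} : Density w → WeakPoincare A (law w) → Sectional A s 0 w
  | up {h n : ℕ} {w : Euc n → ℝ} : Sectional A s h w → Sectional A s (h + 1) w
  | translate {h n : ℕ} {w : Euc n → ℝ} (a : Euc n) : Sectional A s h w →
      Sectional A s (h + 1) fun x => w (a + x)
  | marginal {h m n : ℕ} {w : Euc m → ℝ} {u : Euc n → ℝ} (T : Euc m →ₗ[ℝ] Euc n) :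
      Function.Surjective T → Density u → law u = Measure.map T (law w) → Sectional A s h w →
      Sectional A s (h + 1) u
  | product {h a b n : ℕ} {w : Euc a → ℝ} {u : Euc b → ℝ} (e : (Euc a × Euc b) ≃ₗ[ℝ] Euc n) :
      Sectional A s h w → Sectional A s h u → Sectional A s (h + 1) (tensor e w u)
  | projection {h m n : ℕ} {w : Euc m → ℝ} {u : Euc n → ℝ} (T : Euc m →ₗ[ℝ] Euc n) : m ≤ n + s →
      Function.Surjective T → Density u → MaxMarginal T w u → Sectional A s h w →
      Sectional A s (h + 1) u
  | lift {h m n : ℕ} {w : Euc m → ℝ} {u : Euc n → ℝ} (T : Euc m →ₗ[ℝ] Euc n) : m ≤ n + s →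
      Function.Surjective T → Density w → MaxMarginal T w u → Sectional A s h u →
      Sectional A s (h + 1) w
  | large {h N j n : ℕ} {w : Euc n → ℝ} (e : (Euc N × Euc j) ≃ₗ[ℝ] Euc n) (t : Euc j) : j ≤ s →
      Sectional A s h w → (∀ t', ∫ x, fibre e w t' x ≤ s * ∫ x, fibre e w t x) →
      Sectional A s (h + 1) (fibre e w t)
  | extend {h N j n : ℕ} {w : Euc n → ℝ} (e : (Euc N × Euc j) ≃ₗ[ℝ] Euc n) (t : Euc j) : j ≤ s →
      Density w → (∀ t', ∫ x, fibre e w t' x ≤ s * ∫ x, fibre e w t x) →
      Sectional A s h (fibre e w t) → Sectional A s (h + 1) w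
  | central {h N j n : ℕ} {w : Euc n → ℝ} (e : (Euc N × Euc j) ≃ₗ[ℝ] Euc n) (t : Euc j) : j ≤ s →
      Sectional A s h w → (∀ θ : Euc j, ∫ z, ⟪(e.symm z).2, θ⟫_ℝ ∂(law w) = ⟪t, θ⟫_ℝ) →
      Sectional A s (h + 1) (fibre e w t)
  | factor {h N j n : ℕ} {w : Euc n → ℝ} (e : (Euc N × Euc j) ≃ₗ[ℝ] Euc n) {φ : Euc j → ℝ} :
      j ≤ s → LogConcave φ → Density (weighted e w φ) →
      (∀ a : Euc j, Sectional A s h (weighted e w fun t => Real.exp ⟪a, t⟫_ℝ)) →
      Sectional A s (h + 1) (weighted e w φ)

/-- the boundary measure `μ⁺(S)`, the lower limit of `(μ(S_ε) - μ(S)) / ε` for the open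
neighbourhoods `S_ε` of `S` -/
noncomputable def bdry {n : ℕ} (μ : Measure (Euc n)) (S : Set (Euc n)) : ℝ≥0∞ :=
  Filter.liminf (fun ε : ℝ => (μ (Metric.thickening ε S) - μ S) / ENNReal.ofReal ε)
    (nhdsWithin 0 (Set.Ioi 0))

/-- `μ⁺(S) √σ ≥ c min(μ S, μ Sᶜ)` for all measurable sets `S` of measure one half and for every bound
`σ` of the variances of the marginals of `μ` in directions of length one -/
def KLSHalf {n : ℕ} (c : ℝ) (μ : Measure (Euc n)) : Prop :=
  ∀ σ : ℝ, 0 < σ →
    (∀ θ : Euc n, ‖θ‖ = 1 → ProbabilityTheory.variance (fun x => ⟪x, θ⟫_ℝ) μ ≤ σ) →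
    ∀ S : Set (Euc n), MeasurableSet S → μ S = 1 / 2 →
      ENNReal.ofReal (c / Real.sqrt σ) * min (μ S) (μ Sᶜ) ≤ bdry μ S

/-- all linear images `μ` of the probability measure with density proportional to `w` satisfy
`KLSHalf c μ` -/
def ImagesKLS {m : ℕ} (c : ℝ) (w : Euc m → ℝ) : Prop :=
  ∀ (n : ℕ) (L : Euc m →ₗ[ℝ] Euc n) (μ : Measure (Euc n)), μ = Measure.map L (law w) →
    IsProbabilityMeasure μ ∧ KLSHalf c μ

theorem Density.lw {n : ℕ} {w : Euc n → ℝ} (h : Density w) : Pool.Agent.N483.KM.LW w :=
  Pool.Agent.N483.KM.lw_of h.logConcave.nonneg h.logConcave.conc h.usc h.int h.pos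

theorem mc_lw {A : ℝ → ℝ} {s h n : ℕ} {w : Euc n → ℝ}
    (H : Pool.Agent.N483.KM.MC A (Real.exp (-(s : ℝ))) s h n w) : Pool.Agent.N483.KM.LW w := by
  obtain ⟨κ, -, G⟩ := Pool.Agent.N483.KM.mc_ccR A _ (Real.exp_pos (-(s : ℝ))) s h 1 one_pos
  exact (G n w H).1

theorem mc_of {A : ℝ → ℝ} {s h n : ℕ} {w : Euc n → ℝ} (H : Sectional A s h w) :
    Pool.Agent.N483.KM.MC A (Real.exp (-(s : ℝ))) s h n w := by
  induction H with
  | base h1 h2 =>
    exact .base _ _ h1.lw ((Pool.Agent.N483.KM.wpm_iff h1.lw.adm).1 h2)
  | up _ ih => exact .up _ _ _ ih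
  | translate a _ ih => exact .shift _ _ _ a ih
  | @marginal h m n w u T hT hu he _ ih =>
    have hl := mc_lw ih
    have hTc : Continuous T := T.continuous_of_finiteDimensional
    refine .marg _ _ _ _ _ T hT hu.lw (fun F hF => ?_) ih
    have e1 := Pool.Agent.Y506.RG.pm_int hu.lw.adm F
    have e2 : Pool.Agent.Y506.RG.pm u = Measure.map T (Pool.Agent.Y506.RG.pm w) := he
    rw [← e1, e2, integral_map hTc.measurable.aemeasurable hF.aestronglyMeasurable,
      Pool.Agent.Y506.RG.pm_int hl.adm]
  | product e _ _ ih1 ih2 => exact .prod _ _ _ _ e _ _ ih1 ih2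
  | projection T hm hT hu hc _ ih => exact .proj _ _ _ _ _ T hT hm hu.lw hc ih
  | lift T hm hT hw hc _ ih => exact .lift _ _ _ _ _ T hT hm hw.lw hc ih
  | large e t hj _ ht ih =>
    have hl := mc_lw ih
    exact .sec _ _ _ _ e _ t hj ih (Pool.Agent.N483.KM.lw_sec hl ht) fun t' =>
      Pool.Agent.N483.KM.exp_large (integral_nonneg fun x => hl.adm.nonneg _) (ht t')
  | extend e t hj hw ht _ ih =>
    exact .ext _ _ _ _ e _ t hj hw.lw ih fun t' =>
      Pool.Agent.N483.KM.exp_large (integral_nonneg fun x => hw.lw.adm.nonneg _) (ht t')
  | @central h N j n w e t hj _ ht ih =>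
    have hl := mc_lw ih
    have hb := Pool.Agent.N483.KM.exp_bary hj e hl ht
    refine .sec _ _ _ _ e _ t hj ih (Pool.Agent.N483.KM.lw_sec (C := Real.exp s) hl fun t' => ?_) hb
    have h1 := mul_le_mul_of_nonneg_left (hb t') (Real.exp_pos (s : ℝ)).le
    rwa [← mul_assoc, ← Real.exp_add, add_neg_cancel, Real.exp_zero, one_mul] at h1
  | @factor h N j n w e φ hj hφ hw _ ih =>
    have h0 := mc_lw (ih 0)
    have h1 : weighted e w (fun t => Real.exp ⟪(0 : Euc j), t⟫_ℝ) = w := by
      funext z
      change w z * Real.exp ⟪(0 : Euc j), (e.symm z).2⟫_ℝ = w z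
      rw [inner_zero_left, Real.exp_zero, mul_one]
    rw [h1] at h0
    exact .tilt _ _ _ _ e _ _ hj h0 hφ.nonneg hφ.conc hw.lw ih

/-- **KLS for log-concave measures and their large sections.** For all functions `A : ℝ → ℝ` and all
`s, h` there is a constant `c > 0` such that for all `m`, all densities `w` on `ℝ^m` of the class
`Sectional A s h` and all linear maps `L : ℝ^m → ℝⁿ`, the law `μ` of `L x`, `x` with density proportional
to `w`, is a probability measure with `μ⁺(S) √‖Cov μ‖ ≥ c min(μ S, μ Sᶜ)` for all measurable `S` with
`μ S = 1/2`. -/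
theorem result : ∀ (A : ℝ → ℝ) (s h : ℕ), ∃ c : ℝ, 0 < c ∧
    ∀ (m : ℕ) (w : Euc m → ℝ), Sectional A s h w → ImagesKLS c w := by
  intro A s h
  obtain ⟨c, hc, H⟩ := Pool.Agent.N483.KM.mc_star A _ (Real.exp_pos (-(s : ℝ))) s h
  refine ⟨1 / (4 * c), by positivity, fun m w hw n L μ hμ => ?_⟩
  obtain ⟨h1, h2⟩ := H m w (mc_of hw)
  obtain ⟨hp, h3⟩ := Pool.Agent.N483.KM.half_law h1.adm hc h2 n L μ hμ
  refine ⟨hp, fun σ hσ hvar S hS hS2 => ?_⟩
  refine le_trans ?_ (h3 σ hσ hvar S hS2)
  calc _ ≤ ENNReal.ofReal (1 / (4 * c) / Real.sqrt σ) * 1 :=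
        mul_le_mul_right ((min_le_left _ _).trans prob_le_one) _
    _ = _ := mul_one _

/-- all measures of the class satisfy weak Poincare inequalities -/
theorem weakPoincare : ∀ (A : ℝ → ℝ) (s h : ℕ), ∃ A' : ℝ → ℝ, ∀ (n : ℕ) (w : Euc n → ℝ),
    Sectional A s h w → WeakPoincare A' (law w) := by
  intro A s h
  obtain ⟨A', H⟩ := Pool.Agent.N483.KM.mc_kmw A _ (Real.exp_pos (-(s : ℝ))) s h
  refine ⟨A', fun n w hw => ?_⟩
  have h1 := mc_of hw
  exact (Pool.Agent.N483.KM.wpm_iff (mc_lw h1).adm).2 (H n w h1)

/-- The direct consequence for large sections: if `w` on `ℝ^N × ℝ^j`, `j ≤ s`, satisfies `WeakPoincare A`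
then `w(·, t)` satisfies the inequality of Kannan, Lovasz and Simonovits, with a constant which depends
on `A` and `s`, if no parallel section has an integral larger than `s ∫ w(·, t)`. -/
theorem large_section : ∀ (A : ℝ → ℝ) (s : ℕ), ∃ c : ℝ, 0 < c ∧ ∀ (N j n : ℕ)
    (e : (Euc N × Euc j) ≃ₗ[ℝ] Euc n) (w : Euc n → ℝ) (t : Euc j), j ≤ s → Density w →
    WeakPoincare A (law w) → (∀ t', ∫ x, fibre e w t' x ≤ s * ∫ x, fibre e w t x) →
    ImagesKLS c (fibre e w t) := by
  intro A s
  obtain ⟨c, hc, H⟩ := result A s 1
  exact ⟨c, hc, fun N j n e w t hj hw hA ht => H _ _ (.large e t hj (.base hw hA) ht)⟩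

/-- The direct consequence for extensions: if `w` is a density on `ℝ^N × ℝ^j`, `j ≤ s`, and `w(·, t)`
satisfies `WeakPoincare A` and no parallel section has an integral larger than `s ∫ w(·, t)`, then `w`
satisfies the inequality of Kannan, Lovasz and Simonovits, with a constant which depends on `A`
and `s`. -/
theorem extension : ∀ (A : ℝ → ℝ) (s : ℕ), ∃ c : ℝ, 0 < c ∧ ∀ (N j n : ℕ)
    (e : (Euc N × Euc j) ≃ₗ[ℝ] Euc n) (w : Euc n → ℝ) (t : Euc j), j ≤ s → Density w →
    Density (fibre e w t) → WeakPoincare A (law (fibre e w t)) →
    (∀ t', ∫ x, fibre e w t' x ≤ s * ∫ x, fibre e w t x) → ImagesKLS c w := by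
  intro A s
  obtain ⟨c, hc, H⟩ := result A s 1
  exact ⟨c, hc, fun N j n e w t hj hw hf hA ht => H _ _ (.extend e t hj hw ht (.base hf hA))⟩

/-- uniform measures on convex bodies: the indicator functions are densities -/
theorem bodies {n : ℕ} {K : Set (Euc n)} (h1 : IsCompact K) (h2 : Convex ℝ K)
    (h3 : (interior K).Nonempty) : Density (K.indicator fun _ => 1) ∧
      law (K.indicator fun _ => 1) = (volume K)⁻¹ • volume.restrict K := by
  have h := Pool.Agent.N483.KM.lboR n K h1 h2 h3
  exact ⟨⟨⟨h.adm.nonneg, h.lc⟩, h1.isClosed.upperSemicontinuous_indicator zero_le_one,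
    h.adm.one, h.adm.pos⟩, Pool.Agent.Y506.PV.pm_ind K h1.measurableSet⟩

end Pool.Agent.Results.MP_6d896a_gt.LargeSections
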